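import Pool.Agent.R578.TG.Defs

open Classical Finset

namespace Pool.Agent.R578.TG

/-- reduction mod p of an integer vector -/
def red (p d : ℕ) : (Fin d → ℤ) →+ (Fin d → ZMod p) where
  toFun z := fun i => (z i : ZMod p)
  map_zero' := by ext i; simp
  map_add' x y := by ext i; simp

/-- integer vectors orthogonal to `a` -/
def orth {d : ℕ} (a : Fin d → ℝ) : AddSubgroup (Fin d → ℤ) where
  carrier := {z | ∑ i, a i * (z i : ℝ) = 0}
  zero_mem' := by simp
  add_mem' := by
    intro x y hx hy
    simp only [Set.mem_ofPred_eq] at *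
    simp only [Pi.add_apply, Int.cast_add, mul_add, Finset.sum_add_distrib, hx, hy, add_zero]
  neg_mem' := by
    intro x hx
    simp only [Set.mem_ofPred_eq] at *
    simp only [Pi.neg_apply, Int.cast_neg, mul_neg, Finset.sum_neg_distrib, hx, neg_zero]

theorem orth_ne_top {p d : ℕ} [hp : Fact p.Prime] (a : Fin d → ℝ) (ha : a ≠ 0) :
    (AddSubgroup.toZModSubmodule p ((orth a).map (red p d))) ≠ ⊤ := by
  intro htop
  have h1 : ∀ i : Fin d, ∃ z ∈ orth a, red p d z = Pi.single i 1 := by
    intro i
    have : (Pi.single i 1 : Fin d → ZMod p) ∈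
        (AddSubgroup.toZModSubmodule p ((orth a).map (red p d))) := by
      rw [htop]; trivial
    simpa [AddSubgroup.mem_toZModSubmodule, AddSubgroup.mem_map] using this
  choose z hz hzr using h1
  let Z : Matrix (Fin d) (Fin d) ℤ := fun i j => z i j
  have hZ : Z.map (Int.castRingHom (ZMod p)) = 1 := by
    ext i j
    have h3 : ((z i j : ℤ) : ZMod p) = (Pi.single i 1 : Fin d → ZMod p) j :=
      congrFun (hzr i) j
    show ((z i j : ℤ) : ZMod p) = _
    rw [h3, Matrix.one_apply, Pi.single_apply]
    by_cases hij : i = j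
    · simp [hij]
    · simp [hij, Ne.symm hij]
  have hdet : (Int.castRingHom (ZMod p)) Z.det = 1 := by
    rw [RingHom.map_det]
    simp only [RingHom.mapMatrix_apply, hZ, Matrix.det_one]
  have hdet0 : Z.det ≠ 0 := by
    intro h0
    rw [h0] at hdet
    simp at hdet
  have hR : (Z.map (Int.castRingHom ℝ)).det ≠ 0 := by
    have : (Int.castRingHom ℝ) Z.det = (Z.map (Int.castRingHom ℝ)).det := by
      rw [RingHom.map_det]; rfl
    rw [← this]
    simpa using hdet0
  apply ha
  apply Matrix.eq_zero_of_mulVec_eq_zero hR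
  ext i
  have := hz i
  simp only [orth, AddSubgroup.mem_mk] at this
  have h2 : ∑ j, a j * (z i j : ℝ) = 0 := this
  show ∑ j, ((z i j : ℤ) : ℝ) * a j = 0
  rw [← h2]
  apply Finset.sum_congr rfl
  intro j _
  ring

/-- residues mod p of lattice points on `S` -/
def resid (p : ℕ) {d : ℕ} (S : Set (Fin d → ℝ)) (r : Fin d → ZMod p) : Prop :=
  ∃ y : Fin d → ℤ, (fun i => (y i : ℝ)) ∈ S ∧ red p d y = r

theorem resid_card {p d : ℕ} [hp : Fact p.Prime] (hd : 1 ≤ d) (S : Set (Fin d → ℝ))
    (hS : IsHyperplane S) :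
    (Finset.univ.filter (fun r : Fin d → ZMod p => resid p S r)).card ≤ p ^ (d - 1) := by
  haveI : NeZero p := ⟨hp.out.ne_zero⟩
  obtain ⟨a, b, ha, rfl⟩ := hS
  by_cases hne : ∃ y : Fin d → ℤ, (fun i => (y i : ℝ)) ∈ {x : Fin d → ℝ | ∑ i, a i * x i = b}
  · obtain ⟨y0, hy0⟩ := hne
    set W := (AddSubgroup.toZModSubmodule p ((orth a).map (red p d))) with hW
    have hWt : W ≠ ⊤ := orth_ne_top a ha
    have hfr : Module.finrank (ZMod p) W < d := by
      have := Submodule.finrank_lt (s := W) hWt
      simpa using this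
    have hcardW : Nat.card W = p ^ Module.finrank (ZMod p) W := by
      have := Module.natCard_eq_pow_finrank (K := ZMod p) (V := W)
      simpa using this
    have hle : Nat.card W ≤ p ^ (d - 1) := by
      rw [hcardW]
      exact Nat.pow_le_pow_right hp.out.pos (by omega)
    refine le_trans ?_ hle
    -- injection r ↦ r - red y0
    have hmem : ∀ r : Fin d → ZMod p, resid p {x : Fin d → ℝ | ∑ i, a i * x i = b} r →
        r - red p d y0 ∈ W := by
      rintro r ⟨y, hy, rfl⟩
      rw [← map_sub]
      rw [hW]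
      simp only [AddSubgroup.mem_toZModSubmodule, AddSubgroup.mem_map]
      refine ⟨y - y0, ?_, rfl⟩
      show ∑ i, a i * ((y - y0) i : ℝ) = 0
      simp only [Set.mem_ofPred_eq] at hy hy0
      simp only [Pi.sub_apply, Int.cast_sub, mul_sub, Finset.sum_sub_distrib, hy, hy0, sub_self]
    haveI : Finite W := inferInstance
    have hinj : Function.Injective
      (fun r : {x // x ∈ Finset.univ.filter (fun r : Fin d → ZMod p =>
        resid p {x : Fin d → ℝ | ∑ i, a i * x i = b} r)} =>
        (⟨r.1 - red p d y0, hmem r.1 (Finset.mem_filter.mp r.2).2⟩ : W)) := by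
      intro r s hrs
      have := congrArg Subtype.val hrs
      simp only [sub_left_inj] at this
      exact Subtype.ext this
    have h5 := Nat.card_le_card_of_injective _ hinj
    have h6 : Nat.card {x // x ∈ Finset.univ.filter (fun r : Fin d → ZMod p =>
        resid p {x : Fin d → ℝ | ∑ i, a i * x i = b} r)} =
        (Finset.univ.filter (fun r : Fin d → ZMod p =>
        resid p {x : Fin d → ℝ | ∑ i, a i * x i = b} r)).card := by
      rw [Nat.card_eq_fintype_card, Fintype.card_coe]
    rw [← h6]
    exact h5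
  · have : (Finset.univ.filter (fun r : Fin d → ZMod p =>
        resid p {x : Fin d → ℝ | ∑ i, a i * x i = b} r)) = ∅ := by
      apply Finset.filter_eq_empty_iff.mpr
      rintro r _ ⟨y, hy, _⟩
      exact hne ⟨y, hy⟩
    rw [this]
    simp

end Pool.Agent.R578.TG
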