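import Pool.Agent.R578.TG.A

open Classical Finset

namespace Pool.Agent.R578.TG

theorem f_le {d n k : ℕ} (M : Multiset (Set (Fin d → ℝ))) (h : IsCover d n k M) :
    f n d k ≤ Multiset.card M := Nat.sInf_le ⟨M, h, rfl⟩

/-- hyperplane `∑ x = c` -/
def diagH (d : ℕ) (c : ℝ) : Set (Fin d → ℝ) := {x | ∑ i, x i = c}

theorem diagH_isHyperplane {d : ℕ} (hd : 1 ≤ d) (c : ℝ) : IsHyperplane (diagH d c) := by
  refine ⟨fun _ => 1, c, ?_, ?_⟩
  · intro h
    have := congrFun h ⟨0, hd⟩
    simp at this
  · ext x; simp [diagH]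

theorem mult_add {d : ℕ} (M N : Multiset (Set (Fin d → ℝ))) (x : Fin d → ℤ) :
    mult (M + N) x = mult M x + mult N x := by
  simp [mult]

theorem mult_replicate {d : ℕ} (k : ℕ) (S : Set (Fin d → ℝ)) (x : Fin d → ℤ)
    (h : (fun i => (x i : ℝ)) ∈ S) : mult (Multiset.replicate k S) x = k := by
  unfold mult
  rw [Multiset.filter_eq_self.mpr]
  · simp
  · intro T hT
    rw [Multiset.eq_of_mem_replicate hT]
    exact h

theorem cover_succ {d n k : ℕ} (hd : 1 ≤ d) (M : Multiset (Set (Fin d → ℝ)))
    (h : IsCover d n k M) :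
    IsCover d (n + 1) k (M + Multiset.replicate k (diagH d n)) := by
  refine ⟨?_, ?_⟩
  · intro S hS
    rcases Multiset.mem_add.mp hS with h1 | h1
    · exact h.1 S h1
    · rw [Multiset.eq_of_mem_replicate h1]; exact diagH_isHyperplane hd _
  · intro x hx
    rw [mult_add]
    by_cases hxs : ∑ i, x i = (n : ℤ)
    · rw [mult_replicate k (diagH d n) x]
      · omega
      · show ∑ i, (x i : ℝ) = n
        exact_mod_cast hxs
    · have : x ∈ T d n := by
        refine ⟨hx.1, ?_⟩
        have := hx.2
        push_cast at this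
        omega
      have := h.2 x this
      omega

theorem cover_zero (d k : ℕ) : IsCover d 0 k (0 : Multiset (Set (Fin d → ℝ))) := by
  refine ⟨by simp, ?_⟩
  intro x hx
  exfalso
  have h1 := hx.2
  have h2 : 0 ≤ ∑ i, x i := Finset.sum_nonneg (fun i _ => hx.1 i)
  push_cast at h1
  omega

theorem exists_cover {d : ℕ} (hd : 1 ≤ d) (n k : ℕ) :
    ∃ M : Multiset (Set (Fin d → ℝ)), IsCover d n k M ∧ Multiset.card M = k * n := by
  induction n with
  | zero => exact ⟨0, cover_zero d k, by simp⟩
  | succ n ih =>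
    obtain ⟨M, h1, h2⟩ := ih
    refine ⟨_, cover_succ hd M h1, ?_⟩
    simp [h2]; ring

theorem exists_opt {d : ℕ} (hd : 1 ≤ d) (n k : ℕ) :
    ∃ M : Multiset (Set (Fin d → ℝ)), IsCover d n k M ∧ Multiset.card M = f n d k := by
  have : f n d k ∈ {N | ∃ M : Multiset (Set (Fin d → ℝ)), IsCover d n k M ∧
      Multiset.card M = N} := by
    apply Nat.sInf_mem
    obtain ⟨M, h1, h2⟩ := exists_cover hd n k
    exact ⟨_, M, h1, rfl⟩
  exact this

theorem f_le_mul {d : ℕ} (hd : 1 ≤ d) (n k : ℕ) : f n d k ≤ k * n := by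
  obtain ⟨M, h1, h2⟩ := exists_cover hd n k
  exact h2 ▸ f_le M h1

theorem f_succ_le {d : ℕ} (hd : 1 ≤ d) (n k : ℕ) : f (n + 1) d k ≤ f n d k + k := by
  obtain ⟨M, h1, h2⟩ := exists_opt hd n k
  have := f_le _ (cover_succ hd M h1)
  simpa [h2] using this

theorem f_add_le {d : ℕ} (hd : 1 ≤ d) (n m k : ℕ) : f (n + m) d k ≤ f n d k + k * m := by
  induction m with
  | zero => simp
  | succ m ih =>
    have := f_succ_le hd (n + m) k
    have h2 : n + (m + 1) = n + m + 1 := by ring
    rw [h2]
    nlinarith

theorem T_mono {d n m : ℕ} (h : n ≤ m) : T d n ⊆ T d m := by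
  intro x hx
  refine ⟨hx.1, ?_⟩
  have := hx.2
  omega

theorem f_mono {d : ℕ} (hd : 1 ≤ d) (k : ℕ) {n m : ℕ} (h : n ≤ m) : f n d k ≤ f m d k := by
  obtain ⟨M, h1, h2⟩ := exists_opt hd m k
  rw [← h2]
  exact f_le M ⟨h1.1, fun x hx => h1.2 x (T_mono h hx)⟩

/-- pull back of `S` under `x ↦ p x + r` -/
def pull {d : ℕ} (p : ℕ) (r : Fin d → ℤ) (S : Set (Fin d → ℝ)) : Set (Fin d → ℝ) :=
  {x | (fun i => (p : ℝ) * x i + r i) ∈ S}

theorem pull_isHyperplane {d p : ℕ} (hp : p ≠ 0) (r : Fin d → ℤ) (S : Set (Fin d → ℝ))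
    (hS : IsHyperplane S) : IsHyperplane (pull p r S) := by
  obtain ⟨a, b, ha, rfl⟩ := hS
  refine ⟨fun i => p * a i, b - ∑ i, a i * r i, ?_, ?_⟩
  · intro h
    apply ha
    ext i
    have := congrFun h i
    simp only [Pi.zero_apply, mul_eq_zero, Nat.cast_eq_zero] at this
    rcases this with h | h
    · exact absurd h hp
    · exact h
  · ext x
    simp only [pull, Set.mem_ofPred_eq]
    have : ∑ i, a i * ((p : ℝ) * x i + r i) = ∑ i, p * a i * x i + ∑ i, a i * r i := by
      rw [← Finset.sum_add_distrib]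
      apply Finset.sum_congr rfl
      intro i _
      ring
    rw [this]
    constructor <;> intro h <;> linarith

/-- The multiset double count. -/
theorem sum_card_filter {ι α : Type*} [Fintype ι] (M : Multiset α) (P : ι → α → Prop)
    (c : ℕ) (h : ∀ a ∈ M, (Finset.univ.filter (fun i => P i a)).card ≤ c) :
    ∑ i, Multiset.card (M.filter (P i)) ≤ Multiset.card M * c := by
  induction M using Multiset.induction_on with
  | empty => simp
  | cons a M ih =>
    have h1 : ∑ i, Multiset.card ((a ::ₘ M).filter (P i)) =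
        (Finset.univ.filter (fun i => P i a)).card + ∑ i, Multiset.card (M.filter (P i)) := by
      rw [Finset.card_filter, ← Finset.sum_add_distrib]
      apply Finset.sum_congr rfl
      intro i _
      by_cases hi : P i a
      · simp [Multiset.filter_cons, hi, add_comm]
      · simp [Multiset.filter_cons, hi]
    rw [h1, Multiset.card_cons]
    have h2 := h a (Multiset.mem_cons_self a M)
    have h3 := ih (fun b hb => h b (Multiset.mem_cons_of_mem hb))
    nlinarith

theorem subsample {d p : ℕ} (hp : p.Prime) (hd : 1 ≤ d) (m k : ℕ) :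
    p * f m d k ≤ f (p * (m + (d - 1))) d k := by
  haveI : Fact p.Prime := ⟨hp⟩
  haveI : NeZero p := ⟨hp.ne_zero⟩
  obtain ⟨M, h1, h2⟩ := exists_opt hd (p * (m + (d - 1))) k
  have key : ∀ r : Fin d → ZMod p, f m d k ≤
      Multiset.card (M.filter (fun S => resid p S r)) := by
    intro r
    let rr : Fin d → ℤ := fun i => ((r i).val : ℤ)
    let M' := (M.filter (fun S => resid p S r)).map (pull p rr)
    have hM' : IsCover d m k M' := by
      refine ⟨?_, ?_⟩
      · intro S hS
        obtain ⟨S', hS', rfl⟩ := Multiset.mem_map.mp hS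
        exact pull_isHyperplane hp.ne_zero rr S' (h1.1 S' (Multiset.mem_filter.mp hS').1)
      · intro x hx
        let y : Fin d → ℤ := fun i => (p : ℤ) * x i + rr i
        have hy : y ∈ T d (p * (m + (d - 1))) := by
          refine ⟨?_, ?_⟩
          · intro i
            have := hx.1 i
            have h3 : 0 ≤ rr i := Int.natCast_nonneg _
            positivity
          · have h3 : ∑ i, y i = p * ∑ i, x i + ∑ i, rr i := by
              simp only [y, Finset.sum_add_distrib, Finset.mul_sum]
            have h4 : ∑ i, rr i ≤ ∑ _i : Fin d, ((p : ℤ) - 1) := by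
              apply Finset.sum_le_sum
              intro i _
              have : (r i).val < p := ZMod.val_lt _
              simp only [rr]
              omega
            simp only [Finset.sum_const, Finset.card_univ, Fintype.card_fin, nsmul_eq_mul] at h4
            have h5 := hx.2
            have hp1 : (1 : ℤ) ≤ p := by exact_mod_cast hp.one_lt.le
            have hd1 : (1 : ℤ) ≤ d := by exact_mod_cast hd
            rw [h3]
            push_cast [Nat.cast_sub hd]
            nlinarith
        have h6 := h1.2 y hy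
        refine le_trans h6 ?_
        unfold mult
        simp only [M']
        rw [Multiset.filter_map, Multiset.card_map, Multiset.filter_filter]
        apply Multiset.card_le_card
        apply Multiset.monotone_filter_right
        intro S hS
        refine ⟨?_, ?_⟩
        · show (fun i => (x i : ℝ)) ∈ pull p rr S
          show (fun i => (p : ℝ) * (x i : ℝ) + (rr i : ℝ)) ∈ S
          have : (fun i => (p : ℝ) * (x i : ℝ) + (rr i : ℝ)) = (fun i => ((y i : ℤ) : ℝ)) := by
            ext i; simp [y]
          rw [this]; exact hS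
        · refine ⟨y, hS, ?_⟩
          ext i
          show ((y i : ℤ) : ZMod p) = r i
          simp [y, rr]
    have := f_le M' hM'
    simpa [M'] using this
  have hsum : ∑ _r : Fin d → ZMod p, f m d k ≤
      ∑ r : Fin d → ZMod p, Multiset.card (M.filter (fun S => resid p S r)) :=
    Finset.sum_le_sum (fun r _ => key r)
  have hub := sum_card_filter M (fun (r : Fin d → ZMod p) S => resid p S r) (p ^ (d - 1))
    (fun S hS => resid_card hd S (h1.1 S hS))
  have hcard : ∑ _r : Fin d → ZMod p, f m d k = p ^ d * f m d k := by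
    simp [Finset.sum_const, Finset.card_univ, ZMod.card]
  rw [hcard] at hsum
  rw [h2] at hub
  have h7 : p ^ d * f m d k ≤ f (p * (m + (d - 1))) d k * p ^ (d - 1) := le_trans hsum hub
  have h8 : p ^ d = p ^ (d - 1) * p := by
    rw [← pow_succ]; congr 1; omega
  rw [h8] at h7
  have h9 : 0 < p ^ (d - 1) := Nat.pow_pos hp.pos
  apply Nat.le_of_mul_le_mul_left _ h9
  calc p ^ (d - 1) * (p * f m d k) = p ^ (d - 1) * p * f m d k := by ring
    _ ≤ _ := h7
    _ = _ := by ring

end Pool.Agent.R578.TG
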