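import Pool.Agent.R578.TG.B

open Filter Topology

namespace Pool.Agent.R578.TG

/-- `h(n) = f(n) - 2k(d-1)` is superadditive along dilations. -/
theorem h_mul {d : ℕ} (hd : 1 ≤ d) (k : ℕ) (q : ℕ) (hq : 1 ≤ q) (n : ℕ) :
    (q : ℝ) * ((f n d k : ℝ) - 2 * k * (d - 1)) ≤ (f (q * n) d k : ℝ) - 2 * k * (d - 1) := by
  have hK : (0 : ℝ) ≤ k * ((d : ℝ) - 1) := by
    have : (1 : ℝ) ≤ d := by exact_mod_cast hd
    have : (0 : ℝ) ≤ (d : ℝ) - 1 := by linarith
    positivity
  -- primes
  have hprime : ∀ p : ℕ, p.Prime → ∀ n : ℕ,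
      (p : ℝ) * ((f n d k : ℝ) - 2 * k * (d - 1)) ≤ (f (p * n) d k : ℝ) - 2 * k * (d - 1) := by
    intro p hp n
    have hp2 : (2 : ℝ) ≤ p := by exact_mod_cast hp.two_le
    rcases le_or_gt (d - 1) n with hn | hn
    · obtain ⟨m, rfl⟩ := Nat.exists_eq_add_of_le hn
      have h1 := subsample hp hd m k
      have h2 := f_add_le hd m (d - 1) k
      have h3 : d - 1 + m = m + (d - 1) := by ring
      rw [h3]
      have h1' : (p : ℝ) * f m d k ≤ f (p * (m + (d - 1))) d k := by exact_mod_cast h1
      have h2' : (f (m + (d - 1)) d k : ℝ) ≤ f m d k + k * ((d : ℝ) - 1) := by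
        have : ((d - 1 : ℕ) : ℝ) = (d : ℝ) - 1 := by
          rw [Nat.cast_sub hd]; simp
        rw [← this]
        exact_mod_cast h2
      nlinarith
    · have h2 := f_le_mul hd n k
      have h2' : (f n d k : ℝ) ≤ k * n := by exact_mod_cast h2
      have hn' : (n : ℝ) ≤ (d : ℝ) - 1 := by
        have : ((d - 1 : ℕ) : ℝ) = (d : ℝ) - 1 := by
          rw [Nat.cast_sub hd]; simp
        rw [← this]
        exact_mod_cast hn.le
      have h3 : (k : ℝ) * n ≤ k * ((d : ℝ) - 1) := by
        apply mul_le_mul_of_nonneg_left hn' (by positivity)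
      have h4 : (0 : ℝ) ≤ f (p * n) d k := by positivity
      nlinarith
  induction q using Nat.recOnMul generalizing n with
  | zero => omega
  | one => simp
  | prime p hp => exact hprime p hp n
  | mul a b iha ihb =>
    have ha : 1 ≤ a := Nat.pos_of_ne_zero (by rintro rfl; simp at hq)
    have hb : 1 ≤ b := Nat.pos_of_ne_zero (by rintro rfl; simp at hq)
    have h1 := iha ha (b * n)
    have h2 := ihb hb n
    have ha' : (0 : ℝ) ≤ a := by positivity
    have h3 := mul_le_mul_of_nonneg_left h2 ha'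
    rw [mul_assoc a b n]
    push_cast
    linarith

theorem main_A {d k : ℕ} (hd : 1 ≤ d) : ∃ C : ℝ,
    Tendsto (fun n : ℕ => (f n d k : ℝ) / n) atTop (𝓝 C) ∧
    ∀ n : ℕ, 1 ≤ n → (f n d k : ℝ) ≤ C * n + 2 * k * (d - 1) := by
  set K : ℝ := 2 * k * (d - 1) with hKdef
  have hK0 : 0 ≤ K := by
    have : (1 : ℝ) ≤ d := by exact_mod_cast hd
    have : (0 : ℝ) ≤ (d : ℝ) - 1 := by linarith
    positivity
  set S : Set ℝ := {t | ∃ n : ℕ, 1 ≤ n ∧ t = ((f n d k : ℝ) - K) / n} with hS
  have hne : S.Nonempty := ⟨_, 1, le_refl 1, rfl⟩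
  have hbdd : BddAbove S := by
    refine ⟨k, ?_⟩
    rintro t ⟨n, hn, rfl⟩
    have hn0 : (0 : ℝ) < n := by exact_mod_cast hn
    rw [div_le_iff₀ hn0]
    have h2' : (f n d k : ℝ) ≤ k * n := by exact_mod_cast (f_le_mul hd n k)
    linarith
  have hup : ∀ n : ℕ, 1 ≤ n → (f n d k : ℝ) ≤ sSup S * n + K := by
    intro n hn
    have hn0 : (0 : ℝ) < n := by exact_mod_cast hn
    have := le_csSup hbdd (⟨n, hn, rfl⟩ : ((f n d k : ℝ) - K) / n ∈ S)
    rw [div_le_iff₀ hn0] at this
    linarith
  refine ⟨sSup S, ?_, hup⟩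
  rw [Metric.tendsto_atTop]
  intro ε hε
  obtain ⟨t, ⟨n, hn, rfl⟩, ht⟩ := exists_lt_of_lt_csSup hne (show sSup S - ε / 2 < sSup S by linarith)
  have hn0 : (0 : ℝ) < n := by exact_mod_cast hn
  set v : ℝ := ((f n d k : ℝ) - K) / n with hv
  have hvn : (f n d k : ℝ) - K = v * n := by rw [hv]; field_simp
  -- choose N large
  obtain ⟨N0, hN0⟩ := exists_nat_gt ((|v| * n + K + 1) / (ε / 4))
  refine ⟨N0 + 1, ?_⟩
  intro N hN
  have hNpos : (0 : ℝ) < N := by
    have : 0 < N := by omega
    exact_mod_cast this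
  have hN1 : 1 ≤ N := by omega
  have hbig : |v| * n + K + 1 < ε / 4 * N := by
    have h1 : (N0 : ℝ) < N := by exact_mod_cast (by omega : N0 < N)
    have h2 : (|v| * n + K + 1) / (ε / 4) < N := lt_trans hN0 h1
    have h3 := (div_lt_iff₀ (by positivity : (0:ℝ) < ε / 4)).mp h2
    linarith
  rw [Real.dist_eq, abs_lt]
  constructor
  · -- lower bound
    have hlow : v * N - |v| * n ≤ (f N d k : ℝ) := by
      rcases le_or_gt n N with hnN | hnN
      · set q := N / n with hq
        have hq1 : 1 ≤ q := Nat.div_pos hnN (by omega)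
        have hqn : q * n ≤ N := Nat.div_mul_le_self N n
        have h1 := h_mul hd k q hq1 n
        have h2 : (f (q * n) d k : ℝ) ≤ f N d k := by exact_mod_cast (f_mono hd k hqn)
        have h3 : (N : ℝ) - n ≤ q * n := by
          have : N < q * n + n := by
            have := Nat.lt_div_mul_add (a := N) (b := n) (by omega)
            simpa [hq] using this
          have : (N : ℝ) < q * n + n := by exact_mod_cast this
          linarith
        have h4 : (q : ℝ) * n ≤ N := by exact_mod_cast hqn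
        rw [← hKdef] at h1
        rw [hvn] at h1
        have h5 : v * N - |v| * n ≤ v * (q * n) := by
          have h6 : v * (N - q * n) ≤ |v| * n := by
            calc v * (N - q * n) ≤ |v| * (N - q * n) := by
                  apply mul_le_mul_of_nonneg_right (le_abs_self v) (by linarith)
              _ ≤ |v| * n := by
                  apply mul_le_mul_of_nonneg_left (by linarith) (abs_nonneg v)
          linarith
        nlinarith
      · have : v * N ≤ |v| * n := by
          calc v * N ≤ |v| * N := by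
                apply mul_le_mul_of_nonneg_right (le_abs_self v) (by linarith)
            _ ≤ |v| * n := by
                apply mul_le_mul_of_nonneg_left _ (abs_nonneg v)
                exact_mod_cast hnN.le
        have : (0 : ℝ) ≤ f N d k := by positivity
        linarith
    have : (sSup S - ε) * N < f N d k := by
      have h1 : (sSup S - ε / 2) * N < v * N := by
        apply mul_lt_mul_of_pos_right ht hNpos
      nlinarith [abs_nonneg v]
    rw [lt_sub_iff_add_lt, lt_div_iff₀ hNpos]
    linarith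
  · have := hup N hN1
    rw [sub_lt_iff_lt_add, div_lt_iff₀ hNpos]
    have h0 : 0 ≤ |v| * n := by positivity
    nlinarith

end Pool.Agent.R578.TG
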