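import Pool.Agent.R578.TG.B

open Classical Finset

namespace Pool.Agent.R578.TG

/-- If the sets `B i` have at most `N` elements in total, some `x` with `∑ x = N` avoids them. -/
theorem avoid (m : ℕ) : ∀ (B : Fin (m + 2) → Finset ℕ) (N : ℕ), ∑ i, (B i).card ≤ N →
    ∃ x : Fin (m + 2) → ℕ, ∑ i, x i = N ∧ ∀ i, x i ∉ B i := by
  induction m with
  | zero =>
    intro B N h
    rw [Fin.sum_univ_two] at h
    have hcard : ((B 0) ∪ (B 1).image (fun y => N - y)).card < (Finset.range (N + 1)).card := by
      rw [Finset.card_range]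
      have h1 := Finset.card_union_le (B 0) ((B 1).image (fun y => N - y))
      have h2 : ((B 1).image (fun y => N - y)).card ≤ (B 1).card := Finset.card_image_le
      omega
    obtain ⟨x, hx, hxn⟩ := Finset.exists_mem_notMem_of_card_lt_card hcard
    rw [Finset.mem_range] at hx
    refine ⟨![x, N - x], ?_, ?_⟩
    · rw [Fin.sum_univ_two]
      simp
      omega
    · intro i
      fin_cases i
      · simp only [Fin.zero_eta, Matrix.cons_val_zero]
        intro hh
        exact hxn (Finset.mem_union_left _ hh)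
      · simp only [Fin.mk_one, Matrix.cons_val_one]
        intro hh
        apply hxn
        apply Finset.mem_union_right
        rw [Finset.mem_image]
        refine ⟨N - x, ?_, by omega⟩
        simpa using hh
  | succ m ih =>
    intro B N h
    rw [Fin.sum_univ_succ] at h
    have hcard : (B 0).card < (Finset.range ((B 0).card + 1)).card := by simp
    obtain ⟨u, hu, hun⟩ := Finset.exists_mem_notMem_of_card_lt_card hcard
    rw [Finset.mem_range] at hu
    obtain ⟨x, hx1, hx2⟩ := ih (fun i => B i.succ) (N - u) (by omega)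
    refine ⟨Fin.cons u x, ?_, ?_⟩
    · rw [Fin.sum_univ_succ]
      simp only [Fin.cons_zero, Fin.cons_succ]
      rw [hx1]
      omega
    · intro i
      refine Fin.cases ?_ (fun i => ?_) i
      · simpa using hun
      · simpa using hx2 i

/-- feasible weights of the linear program -/
def Feas (m k : ℕ) (w : ℝ) (a : Fin (m + 2) → Fin k → ℝ) : Prop :=
  (∀ i j, 0 ≤ a i j) ∧
    ∀ J : Fin (m + 2) → Fin k, ∑ i, (J i : ℕ) + 1 ≤ k → w ≤ ∑ i, a i (J i)

/-- value of the linear program -/
noncomputable def lpv (m k : ℕ) : ℝ := sInf {t | ∃ a, Feas m k 1 a ∧ t = ∑ i, ∑ j, a i j}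

theorem lp_bdd (m k : ℕ) : BddBelow {t | ∃ a, Feas m k 1 a ∧ t = ∑ i, ∑ j, a i j} := by
  refine ⟨0, ?_⟩
  rintro t ⟨a, ha, rfl⟩
  exact Finset.sum_nonneg (fun i _ => Finset.sum_nonneg (fun j _ => ha.1 i j))

theorem lp_nonempty (m k : ℕ) : {t | ∃ a, Feas m k 1 a ∧ t = ∑ i, ∑ j, a i j}.Nonempty := by
  refine ⟨_, fun _ _ => 1, ⟨fun _ _ => zero_le_one, ?_⟩, rfl⟩
  intro J _
  simp only [Finset.sum_const, Finset.card_univ, Fintype.card_fin, nsmul_eq_mul, mul_one]
  push_cast
  have : (0 : ℝ) ≤ m := Nat.cast_nonneg m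
  linarith

/-- the `d+1` facet coordinates -/
noncomputable def fc (m n : ℕ) (i : Fin (m + 2)) (x : Fin (m + 1) → ℝ) : ℝ :=
  (Fin.cons ((n : ℝ) - 1 - ∑ j, x j) x : Fin (m + 2) → ℝ) i

theorem facet_class {m : ℕ} (n : ℕ) (S : Set (Fin (m + 1) → ℝ)) (hS : IsFacetParallel S) :
    ∃ ic : Fin (m + 2) × ℝ, ∀ x : Fin (m + 1) → ℝ, x ∈ S ↔ fc m n ic.1 x = ic.2 := by
  rcases hS with ⟨i, c, rfl⟩ | ⟨c, rfl⟩
  · refine ⟨(i.succ, c), ?_⟩
    intro x
    simp [fc]
  · refine ⟨(0, (n : ℝ) - 1 - c), ?_⟩
    intro x
    simp only [fc, Fin.cons_zero, Set.mem_ofPred_eq]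
    constructor <;> intro h <;> linarith

theorem card_le_sum {α ι : Type*} [Fintype ι] (M : Multiset α) (cls : α → ι) (Q : α → Prop)
    (P : ι → α → Prop) (h : ∀ S ∈ M, Q S → P (cls S) S) :
    Multiset.card (M.filter Q) ≤ ∑ i, Multiset.card (M.filter (P i)) := by
  induction M using Multiset.induction_on with
  | empty => simp
  | cons S M ih =>
    have ih' := ih (fun T hT => h T (Multiset.mem_cons_of_mem hT))
    have h9 : ∑ i, Multiset.card ((S ::ₘ M).filter (P i)) =
        (∑ i, (if P i S then 1 else 0)) + ∑ i, Multiset.card (M.filter (P i)) := by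
      rw [← Finset.sum_add_distrib]
      apply Finset.sum_congr rfl
      intro i _
      by_cases hi : P i S
      · simp [hi, add_comm]
      · simp [hi]
    rw [h9]
    by_cases hQ : Q S
    · have h10 : (if P (cls S) S then 1 else 0) ≤ ∑ i, (if P i S then 1 else 0) :=
        Finset.single_le_sum (f := fun i => (if P i S then 1 else 0))
          (fun _ _ => Nat.zero_le _) (Finset.mem_univ _)
      rw [if_pos (h S (Multiset.mem_cons_self S M) hQ)] at h10
      rw [Multiset.filter_cons_of_pos _ hQ, Multiset.card_cons]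
      omega
    · rw [Multiset.filter_cons_of_neg _ hQ]
      omega

/-- membership in a class -/
def PP {α β : Type*} (g : α → β × ℝ) (i : β) (c : ℝ) (S : α) : Prop :=
  (g S).1 = i ∧ (g S).2 = c

theorem lower (m n k : ℕ) (hn : 1 ≤ n) (M : Multiset (Set (Fin (m + 1) → ℝ)))
    (hM : IsFacetCover (m + 1) n k M) : lpv m k * n ≤ Multiset.card M := by
  have hn0 : (0 : ℝ) < n := by exact_mod_cast hn
  -- classification
  let g : Set (Fin (m + 1) → ℝ) → Fin (m + 2) × ℝ := fun S =>
    if h : IsFacetParallel S then (facet_class n S h).choose else (0, 0)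
  have hg : ∀ S ∈ M, ∀ x : Fin (m + 1) → ℝ, x ∈ S ↔ fc m n (g S).1 x = (g S).2 := by
    intro S hS x
    have h := hM.1 S hS
    simp only [g, h, dif_pos]
    exact (facet_class n S h).choose_spec x
  let μ : Fin (m + 2) → ℕ → ℕ := fun i c => Multiset.card (M.filter (fun S => PP g i c S))
  let B : Fin (m + 2) → ℕ → Finset ℕ := fun i j => (Finset.range n).filter (fun c => j < μ i c)
  -- total count
  have htot : ∑ i, ∑ j : Fin k, (B i j).card ≤ Multiset.card M := by
    have h1 : ∀ i, ∑ j : Fin k, (B i j).card ≤ ∑ c ∈ Finset.range n, μ i c := by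
      intro i
      have : ∑ j : Fin k, (B i j).card =
          ∑ c ∈ Finset.range n, ∑ j : Fin k, (if (j : ℕ) < μ i c then 1 else 0) := by
        rw [Finset.sum_comm]
        apply Finset.sum_congr rfl
        intro j _
        simp only [B]
        rw [Finset.card_filter]
      rw [this]
      apply Finset.sum_le_sum
      intro c _
      rw [Fin.sum_univ_eq_sum_range (fun j => if j < μ i c then 1 else 0) k]
      rw [← Finset.card_filter]
      calc ((Finset.range k).filter (fun j => j < μ i c)).card
          ≤ (Finset.range (μ i c)).card := by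
            apply Finset.card_le_card
            intro j hj
            rw [Finset.mem_filter] at hj
            exact Finset.mem_range.mpr hj.2
        _ = μ i c := Finset.card_range _
    have h2 : ∑ i, ∑ c ∈ Finset.range n, μ i c ≤ Multiset.card M := by
      have h3 := sum_card_filter (ι := Fin (m + 2) × Fin n) M
        (fun ic S => PP g ic.1 ((ic.2 : ℕ) : ℝ) S) 1 (by
          intro S _
          rw [Finset.card_le_one]
          rintro ⟨i, c⟩ hic ⟨i', c'⟩ hic'
          rw [Finset.mem_filter] at hic hic'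
          have a1 : (g S).1 = i ∧ (g S).2 = ((c : ℕ) : ℝ) := hic.2
          have a2 : (g S).1 = i' ∧ (g S).2 = ((c' : ℕ) : ℝ) := hic'.2
          have e1 : i = i' := by rw [← a1.1, a2.1]
          have e2 : ((c : ℕ) : ℝ) = ((c' : ℕ) : ℝ) := by rw [← a1.2, a2.2]
          have e3 : c = c' := by
            apply Fin.ext
            exact_mod_cast e2
          rw [e1, e3])
      rw [mul_one, Fintype.sum_prod_type] at h3
      refine le_trans (le_of_eq ?_) h3
      apply Finset.sum_congr rfl
      intro i _
      exact (Fin.sum_univ_eq_sum_range (fun c => μ i c) n).symm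
    exact le_trans (Finset.sum_le_sum (fun i _ => h1 i)) h2
  -- feasibility
  have hfeas : ∀ J : Fin (m + 2) → Fin k, ∑ i, (J i : ℕ) + 1 ≤ k →
      n ≤ ∑ i, (B i (J i)).card := by
    intro J hJ
    by_contra hlt
    push Not at hlt
    obtain ⟨x, hx1, hx2⟩ := avoid m (fun i => B i (J i)) (n - 1) (by omega)
    have hxle : ∀ i, x i ≤ n - 1 := by
      intro i
      rw [← hx1]
      exact Finset.single_le_sum (f := x) (fun _ _ => Nat.zero_le _) (Finset.mem_univ i)
    let y : Fin (m + 1) → ℤ := fun i => (x i.succ : ℤ)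
    have hy : y ∈ T (m + 1) n := by
      refine ⟨fun i => Int.natCast_nonneg _, ?_⟩
      rw [Fin.sum_univ_succ] at hx1
      have : ∑ i, y i = ((∑ i : Fin (m + 1), x i.succ : ℕ) : ℤ) := by simp [y]
      rw [this]
      omega
    have hcov := hM.2 y hy
    have hfc : ∀ i, fc m n i (fun i => (y i : ℝ)) = (x i : ℝ) := by
      intro i
      refine Fin.cases ?_ (fun i => ?_) i
      · simp only [fc, Fin.cons_zero, y]
        have : (∑ i, x i : ℕ) = n - 1 := hx1
        rw [Fin.sum_univ_succ] at this
        have h5 : x 0 + ∑ i : Fin (m + 1), x i.succ + 1 = n := by omega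
        have h6 : (x 0 : ℝ) + ∑ i : Fin (m + 1), (x i.succ : ℝ) + 1 = n := by exact_mod_cast h5
        push_cast
        linarith
      · simp [fc, y]
    have hm : mult M y ≤ ∑ i, μ i (x i) := by
      unfold mult
      have h7 : ∀ S ∈ M, ((fun i => (y i : ℝ)) ∈ S ↔ (g S).2 = (x (g S).1 : ℝ)) := by
        intro S hS
        rw [hg S hS, hfc]
        exact eq_comm
      have h8 : M.filter (fun S => (fun i => (y i : ℝ)) ∈ S) =
          M.filter (fun S => (g S).2 = (x (g S).1 : ℝ)) := by
        apply Multiset.filter_congr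
        intro S hS
        exact h7 S hS
      rw [h8]
      exact card_le_sum M (fun S => (g S).1) (fun S => (g S).2 = (x (g S).1 : ℝ))
        (fun i S => PP g i (x i) S) (fun S _ hS => ⟨rfl, hS⟩)
    have hμ : ∀ i, μ i (x i) ≤ (J i : ℕ) := by
      intro i
      by_contra hc
      push Not at hc
      apply hx2 i
      simp only [B, Finset.mem_filter, Finset.mem_range]
      refine ⟨?_, hc⟩
      have := hxle i
      omega
    have := Finset.sum_le_sum (fun i (_ : i ∈ Finset.univ) => hμ i)
    omega
  -- conclude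
  have hF : Feas m k 1 (fun i j => ((B i j).card : ℝ) / n) := by
    refine ⟨fun i j => by positivity, ?_⟩
    intro J hJ
    rw [← Finset.sum_div, le_div_iff₀ hn0, one_mul]
    exact_mod_cast hfeas J hJ
  have h1 := csInf_le (lp_bdd m k) ⟨_, hF, rfl⟩
  have h2 : ∑ i, ∑ j : Fin k, ((B i j).card : ℝ) / n =
      (∑ i, ∑ j : Fin k, ((B i j).card : ℝ)) / n := by
    rw [Finset.sum_div]
    apply Finset.sum_congr rfl
    intro i _
    rw [Finset.sum_div]
  rw [h2, le_div_iff₀ hn0] at h1
  refine le_trans h1 ?_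
  exact_mod_cast htot

end Pool.Agent.R578.TG
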