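import Mathlib

/-!
# Coverings of triangular grids by hyperplanes (problem MP_7e32a6_co): definitions
-/

open Classical

namespace Pool.Agent.R578.TG

/-- The triangular grid `T_d(n)`: integer points with nonnegative coordinates and
coordinate sum at most `n - 1`. -/
def T (d n : ℕ) : Set (Fin d → ℤ) :=
  {x | (∀ i, 0 ≤ x i) ∧ ∑ i, x i ≤ (n : ℤ) - 1}

/-- Affine hyperplanes of `ℝ^d`. -/
def IsHyperplane {d : ℕ} (S : Set (Fin d → ℝ)) : Prop :=
  ∃ (a : Fin d → ℝ) (b : ℝ), a ≠ 0 ∧ S = {x | ∑ i, a i * x i = b}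

/-- Hyperplanes parallel to one of the `d + 1` facets of the simplex
`x_i ≥ 0`, `∑ x_i ≤ n - 1`. -/
def IsFacetParallel {d : ℕ} (S : Set (Fin d → ℝ)) : Prop :=
  (∃ (i : Fin d) (c : ℝ), S = {x | x i = c}) ∨ (∃ c : ℝ, S = {x | ∑ i, x i = c})

/-- The number of members of the multiset `M` (counted with multiplicity) that contain `x`. -/
noncomputable def mult {d : ℕ} (M : Multiset (Set (Fin d → ℝ))) (x : Fin d → ℤ) : ℕ :=
  Multiset.card (M.filter (fun S => (fun i => (x i : ℝ)) ∈ S))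

/-- `M` is a `k`-cover of `T_d(n)`. -/
def IsCover (d n k : ℕ) (M : Multiset (Set (Fin d → ℝ))) : Prop :=
  (∀ S ∈ M, IsHyperplane S) ∧ ∀ x ∈ T d n, k ≤ mult M x

/-- `M` is a `k`-cover of `T_d(n)` by facet-parallel hyperplanes. -/
def IsFacetCover (d n k : ℕ) (M : Multiset (Set (Fin d → ℝ))) : Prop :=
  (∀ S ∈ M, IsFacetParallel S) ∧ ∀ x ∈ T d n, k ≤ mult M x

/-- `f(n,d,k)`: the least size of a `k`-cover of `T_d(n)`. -/
noncomputable def f (n d k : ℕ) : ℕ :=
  sInf {N | ∃ M : Multiset (Set (Fin d → ℝ)), IsCover d n k M ∧ Multiset.card M = N}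

/-- The least size of a `k`-cover of `T_d(n)` by facet-parallel hyperplanes. -/
noncomputable def fFacet (n d k : ℕ) : ℕ :=
  sInf {N | ∃ M : Multiset (Set (Fin d → ℝ)), IsFacetCover d n k M ∧ Multiset.card M = N}

end Pool.Agent.R578.TG
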