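import Pool.Agent.R578.TG.C
import Pool.Agent.R578.TG.D

open Classical Finset

namespace Pool.Agent.R578.TG

/-- the facet-parallel hyperplane `fc i = c` -/
def Hf (m n : ℕ) (i : Fin (m + 2)) (c : ℕ) : Set (Fin (m + 1) → ℝ) := {x | fc m n i x = c}

theorem Hf_facet (m n : ℕ) (i : Fin (m + 2)) (c : ℕ) : IsFacetParallel (Hf m n i c) := by
  refine Fin.cases ?_ (fun i => ?_) i
  · right
    refine ⟨(n : ℝ) - 1 - c, ?_⟩
    ext x
    simp only [Hf, fc, Fin.cons_zero, Set.mem_ofPred_eq]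
    constructor <;> intro h <;> linarith
  · left
    refine ⟨i, c, ?_⟩
    ext x
    simp [Hf, fc]

theorem facet_isHyperplane {d : ℕ} (hd : 1 ≤ d) (S : Set (Fin d → ℝ)) (h : IsFacetParallel S) :
    IsHyperplane S := by
  rcases h with ⟨i, c, rfl⟩ | ⟨c, rfl⟩
  · refine ⟨Pi.single i 1, c, ?_, ?_⟩
    · intro h
      have := congrFun h i
      simp at this
    · ext x
      simp [Pi.single_apply]
  · exact diagH_isHyperplane hd c

theorem mult_sum {d : ℕ} {ι : Type*} (s : Finset ι) (M : ι → Multiset (Set (Fin d → ℝ)))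
    (x : Fin d → ℤ) : mult (∑ i ∈ s, M i) x = ∑ i ∈ s, mult (M i) x := by
  induction s using Finset.induction_on with
  | empty => simp [mult]
  | insert a s ha ih => rw [Finset.sum_insert ha, Finset.sum_insert ha, mult_add, ih]

theorem mult_range (m n : ℕ) (i : Fin (m + 2)) (b : ℕ) (y : Fin (m + 1) → ℤ) (z : ℕ)
    (hz : fc m n i (fun j => (y j : ℝ)) = z) :
    (if z < b then 1 else 0) ≤ mult ((Multiset.range b).map (Hf m n i)) y := by
  split_ifs with h
  · unfold mult
    have : 0 < Multiset.card (((Multiset.range b).map (Hf m n i)).filter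
        (fun S => (fun i => (y i : ℝ)) ∈ S)) := by
      rw [Multiset.card_pos_iff_exists_mem]
      refine ⟨Hf m n i z, ?_⟩
      rw [Multiset.mem_filter]
      refine ⟨Multiset.mem_map.mpr ⟨z, Multiset.mem_range.mpr h, rfl⟩, hz⟩
    omega
  · exact Nat.zero_le _

theorem upper (m n k : ℕ) (hn : 1 ≤ n) : ∃ M : Multiset (Set (Fin (m + 1) → ℝ)),
    IsFacetCover (m + 1) n k M ∧ (Multiset.card M : ℝ) ≤ lpv m k * n + ((m + 2) * k + 1) := by
  have hn0 : (0 : ℝ) < n := by exact_mod_cast hn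
  obtain ⟨t, ⟨a, ha, rfl⟩, ht⟩ := exists_lt_of_csInf_lt (lp_nonempty m k)
    (show sInf {t | ∃ a, Feas m k 1 a ∧ t = ∑ i, ∑ j, a i j} < lpv m k + 1 / n by
      have : (0 : ℝ) < 1 / n := by positivity
      unfold lpv
      linarith)
  let b : Fin (m + 2) → Fin k → ℕ := fun i j => ⌈(n : ℝ) * a i j⌉₊
  have hb1 : ∀ i j, (n : ℝ) * a i j ≤ b i j := fun i j => Nat.le_ceil _
  have hb2 : ∀ i j, (b i j : ℝ) ≤ n * a i j + 1 := fun i j =>
    (Nat.ceil_lt_add_one (mul_nonneg hn0.le (ha.1 i j))).le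
  refine ⟨∑ i, ∑ j, (Multiset.range (b i j)).map (Hf m n i), ⟨?_, ?_⟩, ?_⟩
  · intro S hS
    rw [Multiset.mem_sum] at hS
    obtain ⟨i, _, hS⟩ := hS
    rw [Multiset.mem_sum] at hS
    obtain ⟨j, _, hS⟩ := hS
    obtain ⟨c, _, rfl⟩ := Multiset.mem_map.mp hS
    exact Hf_facet m n i c
  · intro y hy
    by_contra hlt
    push Not at hlt
    -- coordinates
    have hsumy : (0 : ℤ) ≤ ∑ i, y i := Finset.sum_nonneg (fun i _ => hy.1 i)
    let z : Fin (m + 2) → ℕ := Fin.cons ((n : ℤ) - 1 - ∑ i, y i).toNat (fun i => (y i).toNat)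
    have hyn : ∑ i, y i ≤ (n : ℤ) - 1 := hy.2
    have hz : ∀ i, fc m n i (fun j => (y j : ℝ)) = z i := by
      intro i
      refine Fin.cases ?_ (fun i => ?_) i
      · simp only [fc, Fin.cons_zero, z]
        have : (((((n : ℤ) - 1 - ∑ i, y i).toNat : ℕ) : ℤ) : ℝ) = (((n : ℤ) - 1 - ∑ i, y i : ℤ) : ℝ) := by
          rw [Int.toNat_of_nonneg (by omega)]
        push_cast at this
        push_cast
        linarith
      · simp only [fc, Fin.cons_succ, z]
        have : ((((y i).toNat : ℕ) : ℤ) : ℝ) = ((y i : ℤ) : ℝ) := by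
          rw [Int.toNat_of_nonneg (hy.1 i)]
        push_cast at this
        exact this.symm
    have hzsum : ∑ i, z i + 1 = n := by
      rw [Fin.sum_univ_succ]
      simp only [z, Fin.cons_zero, Fin.cons_succ]
      have : ((∑ i, (y i).toNat : ℕ) : ℤ) = ∑ i, y i := by
        push_cast
        apply Finset.sum_congr rfl
        intro i _
        exact Int.toNat_of_nonneg (hy.1 i)
      omega
    rw [mult_sum] at hlt
    have h1 : ∀ i, (Finset.univ.filter (fun j : Fin k => z i < b i j)).card ≤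
        mult (∑ j, (Multiset.range (b i j)).map (Hf m n i)) y := by
      intro i
      rw [mult_sum, Finset.card_filter]
      exact Finset.sum_le_sum (fun j _ => mult_range m n i (b i j) y (z i) (hz i))
    have h2 : ∑ i, (Finset.univ.filter (fun j : Fin k => z i < b i j)).card < k :=
      lt_of_le_of_lt (Finset.sum_le_sum (fun i _ => h1 i)) hlt
    have h3 : ∀ i, ∃ j : Fin k, (j : ℕ) ≤
        (Finset.univ.filter (fun j : Fin k => z i < b i j)).card ∧ b i j ≤ z i := by
      intro i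
      by_contra hc
      push Not at hc
      have hlti : (Finset.univ.filter (fun j : Fin k => z i < b i j)).card < k :=
        lt_of_le_of_lt (Finset.single_le_sum
          (f := fun i => (Finset.univ.filter (fun j : Fin k => z i < b i j)).card)
          (fun _ _ => Nat.zero_le _) (Finset.mem_univ i)) h2
      have h4 : (Finset.Iic (⟨(Finset.univ.filter (fun j : Fin k => z i < b i j)).card, hlti⟩ : Fin k))
          ⊆ Finset.univ.filter (fun j : Fin k => z i < b i j) := by
        intro j hj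
        rw [Finset.mem_Iic] at hj
        rw [Finset.mem_filter]
        exact ⟨Finset.mem_univ _, hc j hj⟩
      have h5 := Finset.card_le_card h4
      rw [Fin.card_Iic] at h5
      simp only at h5
      omega
    choose J hJ1 hJ2 using h3
    have h6 : ∑ i, (J i : ℕ) + 1 ≤ k := by
      have := Finset.sum_le_sum (fun i (_ : i ∈ Finset.univ) => hJ1 i)
      omega
    have h7 := ha.2 J h6
    have h8 : (n : ℝ) ≤ ∑ i, (b i (J i) : ℝ) := by
      calc (n : ℝ) ≤ n * ∑ i, a i (J i) := by nlinarith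
        _ = ∑ i, n * a i (J i) := by rw [Finset.mul_sum]
        _ ≤ _ := Finset.sum_le_sum (fun i _ => hb1 i (J i))
    have h9 : n ≤ ∑ i, b i (J i) := by exact_mod_cast h8
    have h10 := Finset.sum_le_sum (fun i (_ : i ∈ Finset.univ) => hJ2 i)
    omega
  · have hcard : Multiset.card (∑ i, ∑ j, (Multiset.range (b i j)).map (Hf m n i)) =
        ∑ i, ∑ j, b i j := by
      rw [Multiset.card_sum]
      apply Finset.sum_congr rfl
      intro i _
      rw [Multiset.card_sum]
      apply Finset.sum_congr rfl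
      intro j _
      simp
    rw [hcard]
    push_cast
    calc ∑ i, ∑ j, (b i j : ℝ) ≤ ∑ i, ∑ j, ((n : ℝ) * a i j + 1) :=
          Finset.sum_le_sum (fun i _ => Finset.sum_le_sum (fun j _ => hb2 i j))
      _ = n * ∑ i, ∑ j, a i j + (m + 2) * k := by
          simp only [Finset.sum_add_distrib, Finset.sum_const, Finset.card_univ,
            Fintype.card_fin, nsmul_eq_mul, mul_one, Finset.mul_sum]
          push_cast
          ring
      _ ≤ n * (lpv m k + 1 / n) + (m + 2) * k := by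
          have := mul_le_mul_of_nonneg_left ht.le hn0.le
          linarith
      _ = _ := by field_simp; ring

theorem main_B {d k : ℕ} (hd : 1 ≤ d) : ∃ C B : ℝ, ∀ n : ℕ, 1 ≤ n →
    |(fFacet n d k : ℝ) - C * n| ≤ B := by
  obtain ⟨m, rfl⟩ : ∃ m, d = m + 1 := ⟨d - 1, by omega⟩
  refine ⟨lpv m k, (m + 2) * k + 1, ?_⟩
  intro n hn
  obtain ⟨M, hM, hcard⟩ := upper m n k hn
  have h1 : fFacet n (m + 1) k ≤ Multiset.card M := Nat.sInf_le ⟨M, hM, rfl⟩
  have h2 : fFacet n (m + 1) k ∈ {N | ∃ M : Multiset (Set (Fin (m + 1) → ℝ)),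
      IsFacetCover (m + 1) n k M ∧ Multiset.card M = N} := Nat.sInf_mem ⟨_, M, hM, rfl⟩
  obtain ⟨M', hM', hc'⟩ := h2
  have h3 := lower m n k hn M' hM'
  rw [hc'] at h3
  have h1' : (fFacet n (m + 1) k : ℝ) ≤ Multiset.card M := by exact_mod_cast h1
  have hk : (0 : ℝ) ≤ (m + 2) * k + 1 := by positivity
  rw [abs_le]
  constructor <;> linarith

theorem f_le_facet {d : ℕ} (hd : 1 ≤ d) (n k : ℕ) (hn : 1 ≤ n) : f n d k ≤ fFacet n d k := by
  obtain ⟨m, rfl⟩ : ∃ m, d = m + 1 := ⟨d - 1, by omega⟩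
  obtain ⟨M, hM, hcard⟩ := upper m n k hn
  have h2 : fFacet n (m + 1) k ∈ {N | ∃ M : Multiset (Set (Fin (m + 1) → ℝ)),
      IsFacetCover (m + 1) n k M ∧ Multiset.card M = N} := Nat.sInf_mem ⟨_, M, hM, rfl⟩
  obtain ⟨M', hM', hc'⟩ := h2
  rw [← hc']
  exact f_le M' ⟨fun S hS => facet_isHyperplane hd S (hM'.1 S hS), hM'.2⟩

end Pool.Agent.R578.TG
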